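import Pool.Agent.Q255.L2.StmN
import Pool.Agent.H358R2.Asym

/-!
# Project L2N: the moment is the diagonal term plus a linear form
-/

set_option autoImplicit false

namespace Pool.Agent.Q224.L2.ME

open Filter Topology MeasureTheory Finset
open Pool.Agent.Q255.L2



/-- sums over injective images -/
theorem sum_le_of_inj {α β : Type} [DecidableEq β] (S : Finset α) (T : Finset β) (F : α → ℝ) (G : β → ℝ)
    (hG : ∀ b ∈ T, 0 ≤ G b) (i : α → β) (hi : Set.InjOn i S) (hm : ∀ a ∈ S, i a ∈ T)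
    (h : ∀ a ∈ S, F a ≤ G (i a)) : ∑ a ∈ S, F a ≤ ∑ b ∈ T, G b := by
  calc ∑ a ∈ S, F a ≤ ∑ a ∈ S, G (i a) := Finset.sum_le_sum h
    _ = ∑ b ∈ S.image i, G b := (Finset.sum_image hi).symm
    _ ≤ ∑ b ∈ T, G b := by
      apply Finset.sum_le_sum_of_subset_of_nonneg
      · intro b hb
        obtain ⟨a, ha, rfl⟩ := Finset.mem_image.1 hb
        exact hm a ha
      · intro b hb _
        exact hG b hb

/-- the bound for a pair -/
noncomputable def Bd (M M' : ℕ) : ℝ := 2 / (√((M : ℝ) * M') * |Real.log ((M : ℝ) / M')|)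

theorem Bd_comm (M M' : ℕ) : Bd M M' = Bd M' M := by
  unfold Bd
  rw [mul_comm (M : ℝ) M', show ((M' : ℝ) / M) = ((M : ℝ) / M')⁻¹ by rw [inv_div], Real.log_inv, abs_neg]

theorem split_sq (M M' : ℕ) (h0 : 1 ≤ M) (hsq : IsSquare (M * M')) :
    ∃ a b : ℕ, M = Nat.gcd M M' * a ^ 2 ∧ M' = Nat.gcd M M' * b ^ 2 := by
  obtain ⟨r, hr⟩ := hsq
  have hg : 0 < Nat.gcd M M' := Nat.gcd_pos_of_pos_left _ h0
  obtain ⟨u, hu⟩ := Nat.gcd_dvd_left M M'
  obtain ⟨v, hv⟩ := Nat.gcd_dvd_right M M'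
  have hcop : Nat.gcd u v = 1 := by
    have h1 : Nat.gcd M M' * Nat.gcd u v = Nat.gcd M M' * 1 := by
      rw [← Nat.gcd_mul_left, ← hu, ← hv, mul_one]
    exact Nat.eq_of_mul_eq_mul_left hg h1
  have h2 : Nat.gcd M M' ^ 2 * (u * v) = r ^ 2 := by
    calc Nat.gcd M M' ^ 2 * (u * v) = (Nat.gcd M M' * u) * (Nat.gcd M M' * v) := by ring
      _ = M * M' := by rw [← hu, ← hv]
      _ = r ^ 2 := by rw [hr, sq]
  have h3 : Nat.gcd M M' ∣ r := by
    apply (Nat.pow_dvd_pow_iff two_ne_zero).1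
    exact ⟨_, h2.symm⟩
  obtain ⟨s, hs⟩ := h3
  have h4 : u * v = s ^ 2 := by
    rw [hs, mul_pow] at h2
    exact Nat.eq_of_mul_eq_mul_left (by positivity) h2
  have hun : IsUnit (gcd u v) := by
    rw [← Nat.isUnit_iff] at hcop
    exact hcop
  have hun' : IsUnit (gcd v u) := by
    rw [gcd_comm]
    exact hun
  obtain ⟨a, ha⟩ := exists_eq_pow_of_mul_eq_pow hun h4
  obtain ⟨b, hb⟩ := exists_eq_pow_of_mul_eq_pow hun' (by rw [mul_comm]; exact h4)
  exact ⟨a, b, by rw [← ha, ← hu], by rw [← hb, ← hv]⟩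

theorem Bd_le (d a b : ℕ) (hd : 1 ≤ d) (hb : 1 ≤ b) (hab : b < a) :
    Bd (d * a ^ 2) (d * b ^ 2) ≤ 1 / ((d : ℝ) * b * (a - b : ℕ)) := by
  have hd' : (0 : ℝ) < d := by exact_mod_cast hd
  have hb' : (0 : ℝ) < b := by exact_mod_cast hb
  have ha' : (0 : ℝ) < a := by exact_mod_cast (hb.trans hab.le)
  have hab' : (b : ℝ) < a := by exact_mod_cast hab
  unfold Bd
  have e1 : √(((d * a ^ 2 : ℕ) : ℝ) * ((d * b ^ 2 : ℕ) : ℝ)) = d * a * b := by
    rw [show ((d * a ^ 2 : ℕ) : ℝ) * ((d * b ^ 2 : ℕ) : ℝ) = ((d : ℝ) * a * b) ^ 2 by push_cast; ring]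
    exact Real.sqrt_sq (by positivity)
  have e2 : Real.log (((d * a ^ 2 : ℕ) : ℝ) / ((d * b ^ 2 : ℕ) : ℝ)) = 2 * Real.log ((a : ℝ) / b) := by
    rw [show ((d * a ^ 2 : ℕ) : ℝ) / ((d * b ^ 2 : ℕ) : ℝ) = ((a : ℝ) / b) ^ 2 by
      push_cast
      field_simp, Real.log_pow]
    norm_num
  have e3 : ((a : ℝ) - b) / a ≤ Real.log ((a : ℝ) / b) := by
    have h1 := Real.log_le_sub_one_of_pos (div_pos hb' ha')
    have h2 : Real.log ((a : ℝ) / b) = - Real.log ((b : ℝ) / a) := by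
      rw [← Real.log_inv, inv_div]
    rw [h2]
    have h3 : ((a : ℝ) - b) / a = 1 - b / a := by
      field_simp
    rw [h3]
    linarith
  have e4 : 0 < ((a : ℝ) - b) / a := div_pos (by linarith) ha'
  rw [e1, e2, abs_mul, abs_of_pos (by norm_num : (0 : ℝ) < 2), abs_of_pos (e4.trans_le e3),
    Nat.cast_sub hab.le]
  have e6 : 0 < Real.log ((a : ℝ) / b) := e4.trans_le e3
  rw [div_le_div_iff₀ (by positivity) (mul_pos (mul_pos hd' hb') (by linarith))]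
  have e5 : (a : ℝ) - b ≤ a * Real.log ((a : ℝ) / b) := by
    have := mul_le_mul_of_nonneg_left e3 ha'.le
    rwa [mul_div_cancel₀ _ ha'.ne'] at this
  nlinarith [mul_le_mul_of_nonneg_left e5 (mul_pos hd' hb').le]

/-- the harmonic sum -/
noncomputable def HH (Q : ℕ) : ℝ := ∑ n ∈ Icc 1 Q, 1 / (n : ℝ)

theorem HH_le (Q : ℕ) : HH Q ≤ 1 + Real.log Q := by
  have h1 := harmonic_le_one_add_log Q
  have h2 : ((harmonic Q : ℚ) : ℝ) = HH Q := by
    rw [harmonic_eq_sum_Icc]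
    unfold HH
    push_cast
    apply Finset.sum_congr rfl
    intro n _
    rw [one_div]
  rw [← h2]
  exact h1

open Classical in
theorem sum_half (Q : ℕ) : ∑ p ∈ (Icc 1 Q ×ˢ Icc 1 Q).filter (fun p => IsSquare (p.1 * p.2) ∧ p.2 < p.1),
    Bd p.1 p.2 ≤ HH Q ^ 3 := by
  have key : ∀ p : ℕ × ℕ, ∃ q : ℕ × ℕ × ℕ, p ∈ (Icc 1 Q ×ˢ Icc 1 Q).filter (fun p => IsSquare (p.1 * p.2) ∧ p.2 < p.1) →
      (1 ≤ q.1 ∧ 1 ≤ q.2.1 ∧ 1 ≤ q.2.2) ∧ p = (q.1 * (q.2.1 + q.2.2) ^ 2, q.1 * q.2.1 ^ 2) := by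
    intro p
    by_cases hp : p ∈ (Icc 1 Q ×ˢ Icc 1 Q).filter (fun p => IsSquare (p.1 * p.2) ∧ p.2 < p.1)
    · rw [Finset.mem_filter, Finset.mem_product, Finset.mem_Icc, Finset.mem_Icc] at hp
      obtain ⟨⟨⟨h1, h2⟩, h3, h4⟩, h5, h6⟩ := hp
      obtain ⟨a, b, ha, hb⟩ := split_sq p.1 p.2 h1 h5
      have hg : 0 < Nat.gcd p.1 p.2 := Nat.gcd_pos_of_pos_left _ h1
      have hb1 : 1 ≤ b := by
        rcases Nat.eq_zero_or_pos b with h | h
        · rw [h] at hb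
          rw [hb] at h3
          simp at h3
        · exact h
      have hab : b < a := by
        have h7 : Nat.gcd p.1 p.2 * b ^ 2 < Nat.gcd p.1 p.2 * a ^ 2 := by
          rw [← hb, ← ha]
          exact h6
        exact lt_of_pow_lt_pow_left₀ 2 (Nat.zero_le _) (Nat.lt_of_mul_lt_mul_left h7)
      refine ⟨(Nat.gcd p.1 p.2, b, a - b), fun _ => ⟨⟨hg, hb1, Nat.sub_pos_of_lt hab⟩, ?_⟩⟩
      have e : b + (a - b) = a := by omega
      simp only [e]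
      exact Prod.ext ha hb
    · exact ⟨(0, 0, 0), fun h => absurd h hp⟩
  choose i hi using key
  have h3 : HH Q ^ 3 = ∑ q ∈ Icc 1 Q ×ˢ (Icc 1 Q ×ˢ Icc 1 Q), 1 / ((q.1 : ℝ) * q.2.1 * q.2.2) := by
    rw [Finset.sum_product]
    unfold HH
    rw [show (3 : ℕ) = 2 + 1 from rfl, pow_succ, sq, mul_comm, Finset.sum_mul]
    apply Finset.sum_congr rfl
    intro x _
    rw [Finset.sum_product, Finset.sum_mul_sum, Finset.mul_sum]
    apply Finset.sum_congr rfl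
    intro y _
    rw [Finset.mul_sum]
    apply Finset.sum_congr rfl
    intro z _
    simp only [one_div, mul_inv]
    ring
  rw [h3]
  refine sum_le_of_inj _ _ _ _ ?_ i ?_ ?_ ?_
  · intro q _
    positivity
  · intro p hp p' hp' h
    rw [(hi p hp).2, (hi p' hp').2, h]
  · intro p hp
    obtain ⟨⟨h1, h2, h4⟩, h5⟩ := hi p hp
    rw [Finset.mem_filter, Finset.mem_product, Finset.mem_Icc, Finset.mem_Icc] at hp
    obtain ⟨⟨⟨-, k1⟩, -, -⟩, -, -⟩ := hp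
    have h6 : p.1 = (i p).1 * ((i p).2.1 + (i p).2.2) ^ 2 := congrArg Prod.fst h5
    rw [h6] at k1
    have k2 : (i p).2.1 + (i p).2.2 ≤ ((i p).2.1 + (i p).2.2) ^ 2 := Nat.le_self_pow two_ne_zero _
    have k3 : (i p).1 * 1 ≤ (i p).1 * ((i p).2.1 + (i p).2.2) ^ 2 := Nat.mul_le_mul_left _ (by omega)
    have k4 : 1 * ((i p).2.1 + (i p).2.2) ^ 2 ≤ (i p).1 * ((i p).2.1 + (i p).2.2) ^ 2 := Nat.mul_le_mul_right _ h1
    simp only [Finset.mem_product, Finset.mem_Icc]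
    refine ⟨⟨h1, by omega⟩, ⟨h2, by omega⟩, h4, by omega⟩
  · intro p hp
    obtain ⟨⟨h1, h2, h4⟩, h5⟩ := hi p hp
    have h6 : p.1 = (i p).1 * ((i p).2.1 + (i p).2.2) ^ 2 := congrArg Prod.fst h5
    have h7 : p.2 = (i p).1 * (i p).2.1 ^ 2 := congrArg Prod.snd h5
    have h8 := Bd_le (i p).1 ((i p).2.1 + (i p).2.2) (i p).2.1 h1 h2 (by omega)
    rw [← h6, ← h7, Nat.add_sub_cancel_left] at h8
    exact h8

theorem Bd_nonneg (M M' : ℕ) : 0 ≤ Bd M M' := by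
  unfold Bd
  positivity

open Classical in
/-- the sum over the pairs of different numbers with square product -/
theorem sum_sq (Q : ℕ) : ∑ p ∈ (Icc 1 Q ×ˢ Icc 1 Q).filter (fun p => IsSquare (p.1 * p.2) ∧ p.1 ≠ p.2),
    Bd p.1 p.2 ≤ 2 * HH Q ^ 3 := by
  have h1 : (Icc 1 Q ×ˢ Icc 1 Q).filter (fun p => IsSquare (p.1 * p.2) ∧ p.1 ≠ p.2) =
      (Icc 1 Q ×ˢ Icc 1 Q).filter (fun p => IsSquare (p.1 * p.2) ∧ p.2 < p.1) ∪
      (Icc 1 Q ×ˢ Icc 1 Q).filter (fun p => IsSquare (p.1 * p.2) ∧ p.1 < p.2) := by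
    ext p
    simp only [Finset.mem_filter, Finset.mem_union]
    constructor
    · rintro ⟨h1, h2, h3⟩
      rcases Nat.lt_or_gt_of_ne h3 with h | h
      · exact Or.inr ⟨h1, h2, h⟩
      · exact Or.inl ⟨h1, h2, h⟩
    · rintro (⟨h1, h2, h3⟩ | ⟨h1, h2, h3⟩)
      · exact ⟨h1, h2, h3.ne'⟩
      · exact ⟨h1, h2, h3.ne⟩
  have h2 : ∑ p ∈ (Icc 1 Q ×ˢ Icc 1 Q).filter (fun p => IsSquare (p.1 * p.2) ∧ p.1 < p.2), Bd p.1 p.2 =
      ∑ p ∈ (Icc 1 Q ×ˢ Icc 1 Q).filter (fun p => IsSquare (p.1 * p.2) ∧ p.2 < p.1), Bd p.1 p.2 := by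
    apply Finset.sum_nbij' Prod.swap Prod.swap
    · intro p hp
      simp only [Finset.mem_filter, Finset.mem_product, Prod.fst_swap, Prod.snd_swap] at hp ⊢
      rw [mul_comm]
      exact ⟨⟨hp.1.2, hp.1.1⟩, hp.2⟩
    · intro p hp
      simp only [Finset.mem_filter, Finset.mem_product, Prod.fst_swap, Prod.snd_swap] at hp ⊢
      rw [mul_comm]
      exact ⟨⟨hp.1.2, hp.1.1⟩, hp.2⟩
    · intro p _
      rfl
    · intro p _
      rfl
    · intro p _
      exact Bd_comm _ _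
  rw [h1, Finset.sum_union, h2, two_mul]
  · exact add_le_add (sum_half Q) (sum_half Q)
  · rw [Finset.disjoint_left]
    intro p hp hp'
    rw [Finset.mem_filter] at hp hp'
    exact absurd hp.2.2 (not_lt.2 hp'.2.2.le)

/-- the integral of the cosine -/
theorem int_cos (T₁ T₂ l : ℝ) (hl : l ≠ 0) : |∫ t in T₁..T₂, Real.cos (t * l)| ≤ 2 / |l| := by
  have h1 : ∫ t in T₁..T₂, Real.cos (t * l) = Real.sin (T₂ * l) / l - Real.sin (T₁ * l) / l := by
    apply intervalIntegral.integral_eq_sub_of_hasDerivAt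
    · intro t _
      have h2 : HasDerivAt (fun t : ℝ => t * l) l t := by
        simpa using (hasDerivAt_id t).mul_const l
      have h3 := (h2.sin).div_const l
      rwa [mul_div_assoc, div_self hl, mul_one] at h3
    · exact (Continuous.intervalIntegrable (by fun_prop) _ _)
  rw [h1, ← sub_div, abs_div]
  apply div_le_div_of_nonneg_right _ (abs_nonneg l)
  calc |Real.sin (T₂ * l) - Real.sin (T₁ * l)| ≤ |Real.sin (T₂ * l)| + |Real.sin (T₁ * l)| := abs_sub _ _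
    _ ≤ 1 + 1 := add_le_add (Real.abs_sin_le_one _) (Real.abs_sin_le_one _)
    _ = 2 := by norm_num

/-- the logarithmic factor -/
theorem log_pow_le (k : ℕ) (ε : ℝ) (hε : 0 < ε) (N : ℕ) (hN : 1 ≤ N) :
    HH (N ^ k) ^ 3 ≤ (1 + 3 * k / ε) ^ 3 * (N : ℝ) ^ ε := by
  have hN' : (1 : ℝ) ≤ N := by exact_mod_cast hN
  have h1 := HH_le (N ^ k)
  have h2 : Real.log N ≤ (N : ℝ) ^ (ε / 3) / (ε / 3) := Real.log_le_rpow_div (by positivity) (by positivity)
  have h3 : (1 : ℝ) ≤ (N : ℝ) ^ (ε / 3) := Real.one_le_rpow hN' (by positivity)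
  have h4 : HH (N ^ k) ≤ (1 + 3 * k / ε) * (N : ℝ) ^ (ε / 3) := by
    refine h1.trans ?_
    push_cast
    rw [Real.log_pow]
    have h5 : (k : ℝ) * Real.log N ≤ k * ((N : ℝ) ^ (ε / 3) / (ε / 3)) :=
      mul_le_mul_of_nonneg_left h2 (Nat.cast_nonneg k)
    have h6 : (k : ℝ) * ((N : ℝ) ^ (ε / 3) / (ε / 3)) = 3 * k / ε * (N : ℝ) ^ (ε / 3) := by
      field_simp
    rw [h6] at h5
    rw [add_mul, one_mul]
    linarith
  have h7 : 0 ≤ HH (N ^ k) := by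
    unfold HH
    positivity
  calc HH (N ^ k) ^ 3 ≤ ((1 + 3 * k / ε) * (N : ℝ) ^ (ε / 3)) ^ 3 := pow_le_pow_left₀ h7 h4 3
    _ = (1 + 3 * k / ε) ^ 3 * (N : ℝ) ^ ε := by
      rw [mul_pow, ← Real.rpow_natCast ((N : ℝ) ^ (ε / 3)) 3, ← Real.rpow_mul (by positivity)]
      norm_num




/-- all prime factors are at most `N` -/
def Sm (N n : ℕ) : Prop := ∀ p : ℕ, p.Prime → p ∣ n → p ≤ N

theorem sm_prod {k N : ℕ} (a : Fin k → ℕ) (s : Finset (Fin k)) (ha : ∀ j ∈ s, 1 ≤ a j ∧ a j ≤ N) :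
    Sm N (∏ j ∈ s, a j) := by
  intro p hp hd
  obtain ⟨j, hj, hd'⟩ := (Prime.dvd_finsetProd_iff hp.prime _).1 hd
  exact (Nat.le_of_dvd (ha j hj).1 hd').trans (ha j hj).2

theorem prodG {k N : ℕ} (G : ℕ → ℂ) (h1 : G 1 = 1) (hG : ∀ m n, Sm N (m * n) → 1 ≤ m → 1 ≤ n → G (m * n) = G m * G n)
    (a : Fin k → ℕ) (s : Finset (Fin k)) (ha : ∀ j ∈ s, 1 ≤ a j ∧ a j ≤ N) :
    ∏ j ∈ s, G (a j) = G (∏ j ∈ s, a j) := by
  classical
  induction s using Finset.induction_on with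
  | empty => rw [Finset.prod_empty, Finset.prod_empty, h1]
  | insert i s hi ih =>
    have h2 := sm_prod a (insert i s) ha
    rw [Finset.prod_insert hi] at h2
    rw [Finset.prod_insert hi, Finset.prod_insert hi, ih (fun j hj => ha j (Finset.mem_insert_of_mem hj)),
      hG _ _ h2 (ha i (Finset.mem_insert_self i s)).1
        (Nat.succ_le_of_lt (Finset.prod_pos fun j hj => (ha j (Finset.mem_insert_of_mem hj)).1))]

theorem zn_pow (k N : ℕ) (t : ℝ) (f : ℕ → ℝ) (h1 : f 1 = 1)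
    (hf : ∀ m n, Sm N (m * n) → 1 ≤ m → 1 ≤ n → f (m * n) = f m * f n) :
    (ZN f N t) ^ k = ∑ M ∈ Icc 1 (N ^ k), (((dN k N M : ℝ) * f M : ℝ) : ℂ) * (M : ℂ) ^ (-(1 / 2 : ℂ) - t * Complex.I) := by
  classical
  unfold ZN
  rw [Finset.sum_pow']
  let G : ℕ → ℂ := fun n => (f n : ℂ) * (n : ℂ) ^ (-(1 / 2 : ℂ) - t * Complex.I)
  have hG1 : G 1 = 1 := by
    show (f 1 : ℂ) * ((1 : ℕ) : ℂ) ^ (-(1 / 2 : ℂ) - t * Complex.I) = 1
    rw [h1, Nat.cast_one, Complex.one_cpow, Complex.ofReal_one, one_mul]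
  have hG : ∀ m n, Sm N (m * n) → 1 ≤ m → 1 ≤ n → G (m * n) = G m * G n := by
    intro m n hs hm hn
    show (f (m * n) : ℂ) * ((m * n : ℕ) : ℂ) ^ (-(1 / 2 : ℂ) - t * Complex.I) = _
    rw [hf m n hs hm hn, Nat.cast_mul, Complex.natCast_mul_natCast_cpow, Complex.ofReal_mul]
    show _ = ((f m : ℂ) * (m : ℂ) ^ (-(1 / 2 : ℂ) - t * Complex.I)) * ((f n : ℂ) * (n : ℂ) ^ (-(1 / 2 : ℂ) - t * Complex.I))
    ring
  have hmem : ∀ a ∈ Fintype.piFinset (fun _ : Fin k => Icc 1 N), ∀ j ∈ (Finset.univ : Finset (Fin k)), 1 ≤ a j ∧ a j ≤ N := by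
    intro a ha j _
    exact Finset.mem_Icc.1 (Fintype.mem_piFinset.1 ha j)
  have e1 : ∑ a ∈ Fintype.piFinset (fun _ : Fin k => Icc 1 N),
      ∏ i, ((f (a i) : ℂ) * (a i : ℂ) ^ (-(1 / 2 : ℂ) - t * Complex.I)) =
      ∑ a ∈ Fintype.piFinset (fun _ : Fin k => Icc 1 N), G (∏ i, a i) := by
    apply Finset.sum_congr rfl
    intro a ha
    exact prodG G hG1 hG a Finset.univ (hmem a ha)
  rw [e1, ← Finset.sum_fiberwise_of_maps_to (t := Icc 1 (N ^ k)) (g := fun a : Fin k → ℕ => ∏ i, a i)]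
  · apply Finset.sum_congr rfl
    intro M _
    have e2 : ∑ a ∈ (Fintype.piFinset (fun _ : Fin k => Icc 1 N)).filter (fun a => ∏ i, a i = M), G (∏ i, a i) =
        ∑ a ∈ (Fintype.piFinset (fun _ : Fin k => Icc 1 N)).filter (fun a => ∏ i, a i = M), G M := by
      apply Finset.sum_congr rfl
      intro a ha
      rw [(Finset.mem_filter.1 ha).2]
    rw [e2, Finset.sum_const, nsmul_eq_mul]
    unfold dN
    simp only [G]
    push_cast
    ring
  · intro a ha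
    rw [Finset.mem_Icc]
    refine ⟨Nat.succ_le_of_lt (Finset.prod_pos fun j hj => (hmem a ha j hj).1), ?_⟩
    calc ∏ i, a i ≤ ∏ _i : Fin k, N := Finset.prod_le_prod' fun j hj => (hmem a ha j hj).2
      _ = N ^ k := by rw [Finset.prod_const, Finset.card_univ, Fintype.card_fin]

theorem cpow_re_im (M : ℕ) (hM : 1 ≤ M) (t : ℝ) :
    ((M : ℂ) ^ (-(1 / 2 : ℂ) - t * Complex.I)).re = 1 / √(M : ℝ) * Real.cos (t * Real.log M) ∧
    ((M : ℂ) ^ (-(1 / 2 : ℂ) - t * Complex.I)).im = -(1 / √(M : ℝ) * Real.sin (t * Real.log M)) := by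
  have hM' : (0 : ℝ) < M := by exact_mod_cast hM
  have h0 : (M : ℂ) ≠ 0 := by exact_mod_cast hM'.ne'
  have h1 : (M : ℂ) ^ (-(1 / 2 : ℂ) - t * Complex.I) =
      Complex.exp (((-(1 / 2) * Real.log M : ℝ) : ℂ) + ((-(t * Real.log M) : ℝ) : ℂ) * Complex.I) := by
    rw [Complex.cpow_def_of_ne_zero h0, ← Complex.natCast_log]
    congr 1
    push_cast
    ring
  have h2 : Real.exp (-(1 / 2) * Real.log M) = 1 / √(M : ℝ) := by
    rw [Real.sqrt_eq_rpow, Real.rpow_def_of_pos hM', one_div (Real.exp _), ← Real.exp_neg]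
    congr 1
    ring
  rw [h1, Complex.exp_re, Complex.exp_im]
  simp only [Complex.add_re, Complex.add_im, Complex.ofReal_re, Complex.ofReal_im, Complex.mul_re, Complex.mul_im,
    Complex.I_re, Complex.I_im, mul_zero, mul_one, add_zero, zero_add, sub_self]
  rw [h2, Real.cos_neg, Real.sin_neg]
  constructor
  · ring
  · ring

theorem norm_sq_expand (c : ℕ → ℝ) (I : Finset ℕ) (hI : ∀ M ∈ I, 1 ≤ M) (t : ℝ) :
    ‖∑ M ∈ I, (c M : ℂ) * (M : ℂ) ^ (-(1 / 2 : ℂ) - t * Complex.I)‖ ^ 2 =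
      ∑ p ∈ I ×ˢ I, c p.1 * c p.2 / √((p.1 : ℝ) * p.2) * Real.cos (t * Real.log ((p.1 : ℝ) / p.2)) := by
  rw [← Complex.normSq_eq_norm_sq, Complex.normSq_apply, Complex.re_sum, Complex.im_sum]
  have h1 : ∑ M ∈ I, ((c M : ℂ) * (M : ℂ) ^ (-(1 / 2 : ℂ) - t * Complex.I)).re =
      ∑ M ∈ I, c M * (1 / √(M : ℝ) * Real.cos (t * Real.log M)) := by
    apply Finset.sum_congr rfl
    intro M hM
    rw [Complex.re_ofReal_mul, (cpow_re_im M (hI M hM) t).1]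
  have h2 : ∑ M ∈ I, ((c M : ℂ) * (M : ℂ) ^ (-(1 / 2 : ℂ) - t * Complex.I)).im =
      ∑ M ∈ I, c M * -(1 / √(M : ℝ) * Real.sin (t * Real.log M)) := by
    apply Finset.sum_congr rfl
    intro M hM
    rw [Complex.im_ofReal_mul, (cpow_re_im M (hI M hM) t).2]
  rw [h1, h2, Finset.sum_mul_sum, Finset.sum_mul_sum, ← Finset.sum_add_distrib, Finset.sum_product]
  apply Finset.sum_congr rfl
  intro M hM
  rw [← Finset.sum_add_distrib]
  apply Finset.sum_congr rfl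
  intro M' hM'
  have a1 : (0 : ℝ) < M := by exact_mod_cast hI M hM
  have a2 : (0 : ℝ) < M' := by exact_mod_cast hI M' hM'
  dsimp only
  rw [Real.log_div a1.ne' a2.ne', mul_sub, Real.cos_sub, Real.sqrt_mul a1.le]
  have b1 : √(M : ℝ) ≠ 0 := (Real.sqrt_pos.2 a1).ne'
  have b2 : √(M' : ℝ) ≠ 0 := (Real.sqrt_pos.2 a2).ne'
  field_simp

theorem moment (k N : ℕ) (T₁ T₂ : ℝ) (f : ℕ → ℝ) (h1 : f 1 = 1)
    (hf : ∀ m n, Sm N (m * n) → 1 ≤ m → 1 ≤ n → f (m * n) = f m * f n) :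
    ∫ t in T₁..T₂, ‖ZN f N t‖ ^ (2 * k) = ∑ p ∈ Icc 1 (N ^ k) ×ˢ Icc 1 (N ^ k),
      ((dN k N p.1 : ℝ) * f p.1) * ((dN k N p.2 : ℝ) * f p.2) / √((p.1 : ℝ) * p.2) *
        ∫ t in T₁..T₂, Real.cos (t * Real.log ((p.1 : ℝ) / p.2)) := by
  have h2 : ∀ t : ℝ, ‖ZN f N t‖ ^ (2 * k) = ∑ p ∈ Icc 1 (N ^ k) ×ˢ Icc 1 (N ^ k),
      ((dN k N p.1 : ℝ) * f p.1) * ((dN k N p.2 : ℝ) * f p.2) / √((p.1 : ℝ) * p.2) *
        Real.cos (t * Real.log ((p.1 : ℝ) / p.2)) := by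
    intro t
    rw [mul_comm 2 k, pow_mul, ← norm_pow, zn_pow k N t f h1 hf,
      norm_sq_expand (fun M => (dN k N M : ℝ) * f M) _ (fun M hM => (Finset.mem_Icc.1 hM).1) t]
  simp only [h2]
  rw [intervalIntegral.integral_finsetSum]
  · apply Finset.sum_congr rfl
    intro p _
    rw [intervalIntegral.integral_const_mul]
  · intro p _
    exact Continuous.intervalIntegrable (by fun_prop) _ _

theorem dN_ne (k N M : ℕ) (h : dN k N M ≠ 0) : Sm N M := by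
  classical
  unfold dN at h
  obtain ⟨a, ha⟩ := Finset.card_pos.1 (Nat.pos_of_ne_zero h)
  rw [Finset.mem_filter] at ha
  rw [← ha.2]
  exact sm_prod a Finset.univ (fun j _ => Finset.mem_Icc.1 (Fintype.mem_piFinset.1 ha.1 j))

theorem dN_le (k N M : ℕ) (hM : M ≠ 0) : dN k N M ≤ M.divisors.card ^ k := by
  classical
  unfold dN
  have h1 : (Fintype.piFinset fun _ : Fin k => M.divisors).card = M.divisors.card ^ k := by
    rw [Fintype.card_piFinset, Finset.prod_const, Finset.card_univ, Fintype.card_fin]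
  rw [← h1]
  apply Finset.card_le_card
  intro a ha
  rw [Finset.mem_filter] at ha
  rw [Fintype.mem_piFinset]
  intro j
  rw [Nat.mem_divisors]
  refine ⟨?_, hM⟩
  rw [← ha.2]
  exact Finset.dvd_prod_of_mem a (Finset.mem_univ j)


theorem me : S_ME := by
  classical
  intro k ε hk hε
  have hk' : (0 : ℝ) < k := by exact_mod_cast hk
  obtain ⟨C0, hC0, hdiv⟩ := Pool.Agent.H358R2.div_bound (δ := ε / (4 * k ^ 2)) (by positivity)
  refine ⟨C0 ^ (2 * k) * (2 * (1 + 3 * k / (ε / 2)) ^ 3), by positivity, ?_⟩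
  intro N T₁ T₂ f hN hT hf hf1
  have hN' : (1 : ℝ) ≤ N := by exact_mod_cast hN
  have hfm : ∀ m n, Sm N (m * n) → 1 ≤ m → 1 ≤ n → f (m * n) = f m * f n := hf
  have hone : f 1 = 1 := by
    have e1 : Sm N (1 * 1) := by
      intro p hp hd
      rw [mul_one] at hd
      exact absurd (Nat.dvd_one.1 hd) hp.one_lt.ne'
    have e2 := hfm 1 1 e1 le_rfl le_rfl
    rcases hf1 1 (by
      intro p hp hd
      exact absurd (Nat.dvd_one.1 hd) hp.one_lt.ne') le_rfl with h | h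
    · exact h
    · rw [mul_one, h] at e2
      norm_num at e2
  rw [moment k N T₁ T₂ f hone hfm]
  set Q : ℕ := N ^ k with hQ
  have hQ1 : 1 ≤ Q := Nat.one_le_pow _ _ hN
  -- the three parts
  let E : ℕ × ℕ → ℝ := fun p => ((dN k N p.1 : ℝ) * f p.1) * ((dN k N p.2 : ℝ) * f p.2) / √((p.1 : ℝ) * p.2) *
        ∫ t in T₁..T₂, Real.cos (t * Real.log ((p.1 : ℝ) / p.2))
  have hsplit : ∑ p ∈ Icc 1 Q ×ˢ Icc 1 Q, E p =
      ∑ p ∈ (Icc 1 Q ×ˢ Icc 1 Q).filter (fun p => p.1 = p.2), E p +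
      ∑ p ∈ (Icc 1 Q ×ˢ Icc 1 Q).filter (fun p => IsSquare (p.1 * p.2) ∧ p.1 ≠ p.2), E p +
      ∑ p ∈ (Icc 1 Q ×ˢ Icc 1 Q).filter (fun p => ¬ IsSquare (p.1 * p.2)), E p := by
    rw [← Finset.sum_filter_add_sum_filter_not (Icc 1 Q ×ˢ Icc 1 Q) (fun p : ℕ × ℕ => IsSquare (p.1 * p.2)) E]
    congr 1
    rw [← Finset.sum_filter_add_sum_filter_not ((Icc 1 Q ×ˢ Icc 1 Q).filter (fun p : ℕ × ℕ => IsSquare (p.1 * p.2)))
      (fun p : ℕ × ℕ => p.1 = p.2) E, Finset.filter_filter, Finset.filter_filter]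
    congr 1
    apply Finset.sum_congr _ (fun _ _ => rfl)
    apply Finset.filter_congr
    intro p _
    constructor
    · exact fun h => h.2
    · intro h
      refine ⟨?_, h⟩
      rw [h]
      exact ⟨p.2, rfl⟩
  have hsq1 : ∀ n, Sm N n → 1 ≤ n → f n * f n = 1 := by
    intro n hn hn1
    rcases hf1 n hn hn1 with h | h
    · rw [h, mul_one]
    · rw [h]
      norm_num
  -- the diagonal
  have hdia : ∑ p ∈ (Icc 1 Q ×ˢ Icc 1 Q).filter (fun p => p.1 = p.2), E p = (T₂ - T₁) * dia k N := by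
    have e1 : (Icc 1 Q ×ˢ Icc 1 Q).filter (fun p => p.1 = p.2) = (Icc 1 Q).image (fun n => (n, n)) := by
      ext p
      rw [Finset.mem_filter, Finset.mem_product, Finset.mem_image]
      constructor
      · rintro ⟨⟨h1, -⟩, h2⟩
        exact ⟨p.1, h1, Prod.ext rfl h2⟩
      · rintro ⟨n, hn, rfl⟩
        exact ⟨⟨hn, hn⟩, rfl⟩
    rw [e1, Finset.sum_image (fun a _ b _ h => congrArg Prod.fst h)]
    unfold dia
    rw [Finset.mul_sum]
    apply Finset.sum_congr rfl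
    intro n hn
    have hn1 : 1 ≤ n := (Finset.mem_Icc.1 hn).1
    have hn' : (0 : ℝ) < n := by exact_mod_cast hn1
    show ((dN k N n : ℝ) * f n) * ((dN k N n : ℝ) * f n) / √((n : ℝ) * n) *
        (∫ t in T₁..T₂, Real.cos (t * Real.log ((n : ℝ) / n))) = _
    rw [div_self hn'.ne', Real.log_one, Real.sqrt_mul_self hn'.le]
    simp only [mul_zero, Real.cos_zero]
    rw [intervalIntegral.integral_const, smul_eq_mul, mul_one]
    by_cases h0 : dN k N n = 0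
    · rw [h0]
      simp
    · have h2 := hsq1 n (dN_ne k N n h0) hn1
      rw [show ((dN k N n : ℝ) * f n) * ((dN k N n : ℝ) * f n) = (dN k N n : ℝ) ^ 2 * (f n * f n) by ring, h2, mul_one]
      ring
  -- the part which is linear in the values of f
  have hlin : ∑ p ∈ (Icc 1 Q ×ˢ Icc 1 Q).filter (fun p => ¬ IsSquare (p.1 * p.2)), E p =
      ∑ l ∈ Icc 1 (N ^ (2 * k)), wm k N T₁ T₂ l * f l := by
    rw [← Finset.sum_fiberwise_of_maps_to (t := Icc 1 (N ^ (2 * k))) (g := fun p : ℕ × ℕ => p.1 * p.2)]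
    · apply Finset.sum_congr rfl
      intro l _
      unfold wm
      by_cases hl : IsSquare l
      · rw [if_pos hl, zero_mul, Finset.filter_filter, Finset.filter_false_of_mem, Finset.sum_empty]
        rintro p _ ⟨h1, h2⟩
        rw [h2] at h1
        exact h1 hl
      · rw [if_neg hl, Finset.sum_mul, Finset.filter_filter]
        have e1 : (Icc 1 Q ×ˢ Icc 1 Q).filter (fun p => ¬ IsSquare (p.1 * p.2) ∧ p.1 * p.2 = l) =
            (Icc 1 (N ^ k) ×ˢ Icc 1 (N ^ k)).filter (fun p => p.1 * p.2 = l) := by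
          apply Finset.filter_congr
          intro p _
          constructor
          · exact fun h => h.2
          · intro h
            exact ⟨by rw [h]; exact hl, h⟩
        rw [e1]
        apply Finset.sum_congr rfl
        intro p hp
        rw [Finset.mem_filter, Finset.mem_product, Finset.mem_Icc, Finset.mem_Icc] at hp
        obtain ⟨⟨⟨h1, -⟩, h2, -⟩, h3⟩ := hp
        show ((dN k N p.1 : ℝ) * f p.1) * ((dN k N p.2 : ℝ) * f p.2) / √((p.1 : ℝ) * p.2) *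
          (∫ t in T₁..T₂, Real.cos (t * Real.log ((p.1 : ℝ) / p.2))) = _
        by_cases h0 : dN k N p.1 = 0
        · rw [h0]
          simp
        by_cases h0' : dN k N p.2 = 0
        · rw [h0']
          simp
        have h4 : Sm N (p.1 * p.2) := by
          intro q hq hd
          rcases (Nat.Prime.dvd_mul hq).1 hd with h | h
          · exact dN_ne k N p.1 h0 q hq h
          · exact dN_ne k N p.2 h0' q hq h
        have h5 : f l = f p.1 * f p.2 := by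
          rw [← h3]
          exact hfm p.1 p.2 h4 h1 h2
        rw [h5]
        ring
    · intro p hp
      rw [Finset.mem_filter, Finset.mem_product, Finset.mem_Icc, Finset.mem_Icc] at hp
      obtain ⟨⟨⟨h1, h2⟩, h3, h4⟩, -⟩ := hp
      rw [Finset.mem_Icc]
      refine ⟨Nat.succ_le_of_lt (Nat.mul_pos h1 h3), ?_⟩
      calc p.1 * p.2 ≤ Q * Q := Nat.mul_le_mul h2 h4
        _ = N ^ (2 * k) := by rw [hQ, ← pow_add, two_mul]
  -- the bound of the coefficients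
  have hdN : ∀ M, 1 ≤ M → M ≤ Q → (dN k N M : ℝ) ≤ C0 ^ k * (N : ℝ) ^ (ε / 4) := by
    intro M hM1 hM2
    have e1 : (dN k N M : ℝ) ≤ (M.divisors.card : ℝ) ^ k := by exact_mod_cast dN_le k N M (by omega)
    have e2 : (M.divisors.card : ℝ) ≤ C0 * (N : ℝ) ^ (ε / (4 * k)) := by
      refine (hdiv M (by omega)).trans ?_
      apply mul_le_mul_of_nonneg_left _ (by linarith)
      have e3 : (M : ℝ) ≤ (N : ℝ) ^ k := by exact_mod_cast hM2
      calc (M : ℝ) ^ (ε / (4 * k ^ 2)) ≤ ((N : ℝ) ^ k) ^ (ε / (4 * k ^ 2)) :=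
            Real.rpow_le_rpow (by positivity) e3 (by positivity)
        _ = (N : ℝ) ^ (ε / (4 * k)) := by
            rw [← Real.rpow_natCast, ← Real.rpow_mul (by positivity)]
            congr 1
            field_simp
    refine e1.trans ((pow_le_pow_left₀ (by positivity) e2 k).trans ?_)
    rw [mul_pow, ← Real.rpow_natCast ((N : ℝ) ^ (ε / (4 * k))) k, ← Real.rpow_mul (by positivity)]
    have e4 : ε / (4 * k) * k = ε / 4 := by
      field_simp
    rw [e4]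
  have hfab : ∀ M, 1 ≤ M → |(dN k N M : ℝ) * f M| ≤ (dN k N M : ℝ) := by
    intro M hM1
    by_cases h0 : dN k N M = 0
    · rw [h0]
      simp
    · rw [abs_mul, abs_of_nonneg (Nat.cast_nonneg (dN k N M))]
      rcases hf1 M (dN_ne k N M h0) hM1 with h | h
      · rw [h]
        simp
      · rw [h]
        simp
  have hEbd : ∀ p ∈ (Icc 1 Q ×ˢ Icc 1 Q).filter (fun p => IsSquare (p.1 * p.2) ∧ p.1 ≠ p.2),
      |E p| ≤ (C0 ^ k * (N : ℝ) ^ (ε / 4)) ^ 2 * Bd p.1 p.2 := by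
    intro p hp
    rw [Finset.mem_filter, Finset.mem_product, Finset.mem_Icc, Finset.mem_Icc] at hp
    obtain ⟨⟨⟨h1, h2⟩, h3, h4⟩, -, h5⟩ := hp
    have a1 : (0 : ℝ) < p.1 := by exact_mod_cast h1
    have a2 : (0 : ℝ) < p.2 := by exact_mod_cast h3
    have hlog : Real.log ((p.1 : ℝ) / p.2) ≠ 0 := by
      apply Real.log_ne_zero_of_pos_of_ne_one (div_pos a1 a2)
      intro h6
      rw [div_eq_one_iff_eq a2.ne'] at h6
      exact h5 (by exact_mod_cast h6)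
    show |((dN k N p.1 : ℝ) * f p.1) * ((dN k N p.2 : ℝ) * f p.2) / √((p.1 : ℝ) * p.2) *
        ∫ t in T₁..T₂, Real.cos (t * Real.log ((p.1 : ℝ) / p.2))| ≤ _
    rw [abs_mul, abs_div, abs_mul, abs_of_nonneg (Real.sqrt_nonneg _)]
    have b1 := (hfab p.1 h1).trans (hdN p.1 h1 h2)
    have b2 := (hfab p.2 h3).trans (hdN p.2 h3 h4)
    have b3 := int_cos T₁ T₂ _ hlog
    have b4 : |(dN k N p.1 : ℝ) * f p.1| * |(dN k N p.2 : ℝ) * f p.2| ≤ (C0 ^ k * (N : ℝ) ^ (ε / 4)) ^ 2 := by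
      rw [sq]
      exact mul_le_mul b1 b2 (abs_nonneg _) (by positivity)
    have b5 : 0 < √((p.1 : ℝ) * p.2) := Real.sqrt_pos.2 (mul_pos a1 a2)
    calc |(dN k N p.1 : ℝ) * f p.1| * |(dN k N p.2 : ℝ) * f p.2| / √((p.1 : ℝ) * p.2) *
          |∫ t in T₁..T₂, Real.cos (t * Real.log ((p.1 : ℝ) / p.2))|
        ≤ (C0 ^ k * (N : ℝ) ^ (ε / 4)) ^ 2 / √((p.1 : ℝ) * p.2) * (2 / |Real.log ((p.1 : ℝ) / p.2)|) := by
          apply mul_le_mul _ b3 (abs_nonneg _) (by positivity)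
          exact div_le_div_of_nonneg_right b4 b5.le
      _ = (C0 ^ k * (N : ℝ) ^ (ε / 4)) ^ 2 * Bd p.1 p.2 := by
          unfold Bd
          rw [div_mul_div_comm, mul_div_assoc]
  have herr : |∑ p ∈ (Icc 1 Q ×ˢ Icc 1 Q).filter (fun p => IsSquare (p.1 * p.2) ∧ p.1 ≠ p.2), E p| ≤
      C0 ^ (2 * k) * (2 * (1 + 3 * k / (ε / 2)) ^ 3) * (N : ℝ) ^ ε := by
    calc |∑ p ∈ (Icc 1 Q ×ˢ Icc 1 Q).filter (fun p => IsSquare (p.1 * p.2) ∧ p.1 ≠ p.2), E p|
        ≤ ∑ p ∈ (Icc 1 Q ×ˢ Icc 1 Q).filter (fun p => IsSquare (p.1 * p.2) ∧ p.1 ≠ p.2), |E p| :=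
          Finset.abs_sum_le_sum_abs _ _
      _ ≤ ∑ p ∈ (Icc 1 Q ×ˢ Icc 1 Q).filter (fun p => IsSquare (p.1 * p.2) ∧ p.1 ≠ p.2),
          (C0 ^ k * (N : ℝ) ^ (ε / 4)) ^ 2 * Bd p.1 p.2 := Finset.sum_le_sum hEbd
      _ = (C0 ^ k * (N : ℝ) ^ (ε / 4)) ^ 2 *
          ∑ p ∈ (Icc 1 Q ×ˢ Icc 1 Q).filter (fun p => IsSquare (p.1 * p.2) ∧ p.1 ≠ p.2), Bd p.1 p.2 := by
          rw [Finset.mul_sum]
      _ ≤ (C0 ^ k * (N : ℝ) ^ (ε / 4)) ^ 2 * (2 * ((1 + 3 * k / (ε / 2)) ^ 3 * (N : ℝ) ^ (ε / 2))) := by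
          apply mul_le_mul_of_nonneg_left _ (by positivity)
          refine (sum_sq Q).trans ?_
          have := log_pow_le k (ε / 2) (by positivity) N hN
          linarith
      _ = C0 ^ (2 * k) * (2 * (1 + 3 * k / (ε / 2)) ^ 3) * (N : ℝ) ^ ε := by
          have e1 : (N : ℝ) ^ ε = ((N : ℝ) ^ (ε / 4)) ^ 2 * (N : ℝ) ^ (ε / 2) := by
            rw [← Real.rpow_natCast ((N : ℝ) ^ (ε / 4)) 2, ← Real.rpow_mul (by positivity),
              ← Real.rpow_add (by positivity)]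
            congr 1
            push_cast
            ring
          rw [e1, mul_pow, ← pow_mul, mul_comm k 2]
          ring
  have hfin : ∑ p ∈ Icc 1 Q ×ˢ Icc 1 Q, E p - ((T₂ - T₁) * dia k N + ∑ l ∈ Icc 1 (N ^ (2 * k)), wm k N T₁ T₂ l * f l) =
      ∑ p ∈ (Icc 1 Q ×ˢ Icc 1 Q).filter (fun p => IsSquare (p.1 * p.2) ∧ p.1 ≠ p.2), E p := by
    rw [hsplit, hdia, hlin]
    ring
  have hfin' := congrArg abs hfin
  exact hfin'.le.trans herr

end Pool.Agent.Q224.L2.ME
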